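import Pool.Agent.N869.GK.StmX
import Pool.Agent.N340.GK.LCG

/-!
# Project GK (helper869), LOCN: the local groups are large (helper835)
-/

set_option autoImplicit false

open scoped Classical

open Filter Topology WeierstrassCurve
open Pool.Agent.TH841.SH (LocC)
open Pool.Agent.N869.GK.X
open Pool.Agent.N340.GK.LCG (sqN_pad)

namespace Pool.Agent.N835.GK.LOCN

/-- every nonzero element of `ℚ_[p]` is an integer times a square -/
theorem int_sq (p : ℕ) [Fact p.Prime] {w : ℚ_[p]} (hw : w ≠ 0) :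
    ∃ m : ℤ, m ≠ 0 ∧ IsSquare (w * m) := by
  have h1 : ∀ᶠ z in 𝓝 w, IsSquare (z * w) ∧ z ≠ 0 :=
    (sqN_pad p w hw).and (isOpen_ne.mem_nhds hw)
  obtain ⟨U, hU, hUo, hwU⟩ := mem_nhds_iff.1 h1
  obtain ⟨ε, hε, hb⟩ := Metric.isOpen_iff.1 hUo w hwU
  obtain ⟨q, hq⟩ := Padic.rat_dense p w hε
  have hqU : (q : ℚ_[p]) ∈ U := hb (by
    rw [Metric.mem_ball, dist_comm, dist_eq_norm]
    exact hq)
  obtain ⟨⟨s, hs⟩, hq0⟩ := hU hqU
  have hq0' : q ≠ 0 := by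
    rintro rfl
    exact hq0 (by simp)
  refine ⟨q.num * q.den, mul_ne_zero (Rat.num_ne_zero.2 hq0') (by exact_mod_cast q.den_nz), ?_⟩
  refine ⟨s * q.den, ?_⟩
  have hd : (q.den : ℚ_[p]) ≠ 0 := by exact_mod_cast q.den_nz
  have hqe : (q : ℚ_[p]) * q.den = q.num := by
    have : (q : ℚ) * q.den = q.num := Rat.mul_den_eq_num q
    exact_mod_cast congrArg (fun t : ℚ => (t : ℚ_[p])) this
  push_cast
  rw [← hqe]
  linear_combination (q.den : ℚ_[p]) ^ 2 * hs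

theorem sq_mul {K : Type} [Field K] {u v m n : K} (hm : m ≠ 0) (hn : n ≠ 0)
    (h1 : IsSquare (u * m)) (h2 : IsSquare (v * n)) (h3 : IsSquare (m * n)) :
    IsSquare (u * v) := by
  obtain ⟨a, ha⟩ := h1
  obtain ⟨b, hb⟩ := h2
  obtain ⟨c, hc⟩ := h3
  refine ⟨a * b * c / (m * n), ?_⟩
  have h4 : u * v = (u * m) * (v * n) * (m * n) / (m * n) ^ 2 := by
    field_simp
  rw [h4, ha, hb, hc]
  field_simp

theorem many (hHALFK : S_HALFK) (hREPK : S_REPK) (p : ℕ) [Fact p.Prime] {e1 e2 e3 : ℤ}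
    (h12 : e1 ≠ e2) (h13 : e1 ≠ e3) (h23 : e2 ≠ e3) {N : ℕ}
    (P : Fin N → (Wk (e1 : ℚ_[p]) e2 e3).toAffine.Point)
    (hP : ∀ i j, i ≠ j → ∀ q : (Wk (e1 : ℚ_[p]) e2 e3).toAffine.Point, P i - P j ≠ q + q) :
    Many ℚ_[p] N e1 e2 e3 := by
  have d12 : (e1 : ℚ_[p]) ≠ e2 := by exact_mod_cast h12
  have d13 : (e1 : ℚ_[p]) ≠ e3 := by exact_mod_cast h13
  have d23 : (e2 : ℚ_[p]) ≠ e3 := by exact_mod_cast h23
  choose Q x y h hy hPQ using fun i => hREPK p e1 e2 e3 h12 h13 h23 (P i)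
  have heq : ∀ i, y i ^ 2 = (x i - e1) * (x i - e2) * (x i - e3) := by
    intro i
    have h1 := (Affine.equation_iff _ _).1 (h i).1
    simp only [Wk] at h1
    linear_combination h1
  have c1 : ∀ i, x i - (e1 : ℚ_[p]) ≠ 0 := fun i h0 => by
    have := heq i
    rw [h0, zero_mul, zero_mul] at this
    exact hy i (pow_eq_zero_iff (two_ne_zero) |>.1 this)
  have c2 : ∀ i, x i - (e2 : ℚ_[p]) ≠ 0 := fun i h0 => by
    have := heq i
    rw [h0, mul_zero, zero_mul] at this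
    exact hy i (pow_eq_zero_iff (two_ne_zero) |>.1 this)
  choose m hm0 hm using fun i => int_sq p (c1 i)
  choose n hn0 hn using fun i => int_sq p (c2 i)
  refine ⟨fun i => (m i, n i), fun i => ⟨hm0 i, hn0 i, x i, y i, hy i, heq i, hm i, hn i⟩, ?_⟩
  rintro i j hij ⟨s1, s2⟩
  have m0 : ∀ i, (m i : ℚ_[p]) ≠ 0 := fun i => by exact_mod_cast hm0 i
  have n0 : ∀ i, (n i : ℚ_[p]) ≠ 0 := fun i => by exact_mod_cast hn0 i
  push_cast at s1 s2
  obtain ⟨R, hR⟩ := hHALFK ℚ_[p] e1 e2 e3 d12 d13 d23 (x i) (y i) (x j) (y j) (h i) (h j) (hy i)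
    (hy j) (sq_mul (m0 i) (m0 j) (hm i) (hm j) s1) (sq_mul (n0 i) (n0 j) (hn i) (hn j) s2)
  refine hP i j hij (R - Q i + Q j) ?_
  rw [← hPQ i, ← hPQ j] at hR
  have e : P i - P j = (P i + (Q i + Q i) - (P j + (Q j + Q j))) - (Q i + Q i) + (Q j + Q j) := by
    abel
  rw [e, hR]
  abel

/-- **GK-LOCN** -/
theorem t_LOCN : S_LOCN := by
  intro hHALFK hTWOT hREPK hHRB hDBL hDTW hDIF hTRL hTORB hDIVB e1 e2 e3 h12 h13 h23
  have two : ∀ (p : ℕ) [Fact p.Prime],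
      Nat.card {P : (Wk (e1 : ℚ_[p]) e2 e3).toAffine.Point // P + P = 0} = 4 := fun p _ =>
    hTWOT ℚ_[p] e1 e2 e3 (by exact_mod_cast h12) (by exact_mod_cast h13) (by exact_mod_cast h23)
  refine ⟨?_, fun p _ => ?_⟩
  · obtain ⟨N, hN, hT⟩ := hTORB hTWOT hDBL hDTW hDIF 2 e1 e2 e3 h12 h13 h23
    obtain ⟨P, hP⟩ := (hHRB _ N hN hT (two 2)).2 (hDIVB hDBL hDTW hDIF hTRL e1 e2 e3 h12 h13 h23 N hT)
    exact many hHALFK hREPK 2 h12 h13 h23 P hP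
  · obtain ⟨N, hN, hT⟩ := hTORB hTWOT hDBL hDTW hDIF p e1 e2 e3 h12 h13 h23
    obtain ⟨P, hP⟩ := (hHRB _ N hN hT (two p)).1
    exact many hHALFK hREPK p h12 h13 h23 P hP

end Pool.Agent.N835.GK.LOCN
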