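import Pool.Agent.N869.GK.StmH
import Pool.Agent.N322.ZE.SQ2

/-!
# Project GK (helper869), task H-SQH (helper835): the second moment with different properties

A modification of `Pool/Agent/N322/ZE/SQ2.lean` (helper322).
-/

set_option autoImplicit false
set_option linter.unusedVariables false

open scoped Classical

namespace Pool.Agent.N835.GK

open Finset
open Pool.Agent.N869.ZE (cnt lc mrg EE OkP)
open Pool.Agent.N869.QT.G (sys exC pr Dep sys_fst sys_snd sys_congr)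
open Pool.Agent.N322.ZE (m1 m2 cnt_m1 cnt_m2 ok_EE ok_E1 dep_P)
open Pool.Agent.N869.GK.H

theorem dep_GdH {R I Q : Type} (Gd : I → Finset R → Prop) (E : I → Finset Q) (S : Finset R) :
    Dep S (fun γ : R → Q => ∀ a, Gd a (sys γ E S a)) := by
  intro γ γ' h
  simp only [sys_congr E S _ h]

theorem all_EEH {R I Q : Type} [Fintype Q] (Gd : I → Finset R → Prop) (E : I → Finset Q)
    (S : Finset R) (γ : R → Q × Q) :
    (∀ a, (Sum.elim Gd Gd : I ⊕ I → Finset R → Prop) a (sys γ (EE E) S a)) ↔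
      (∀ a, Gd a (sys (fun p => (γ p).1) E S a)) ∧
      ∀ a, Gd a (sys (fun p => (γ p).2) E S a) := by
  constructor
  · intro h
    refine ⟨fun a => ?_, fun b => ?_⟩
    · rw [← sys_fst E (EE E) S γ a (Sum.inl a) rfl]
      exact h (Sum.inl a)
    · rw [← sys_snd E (EE E) S γ b (Sum.inr b) rfl]
      exact h (Sum.inr b)
  · rintro ⟨h, h'⟩ (a | b)
    · rw [sys_fst E (EE E) S γ a (Sum.inl a) rfl]
      exact h a
    · rw [sys_snd E (EE E) S γ b (Sum.inr b) rfl]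
      exact h' b

theorem all_E1H {R I Q : Type} [Fintype Q] (Gd : I → Finset R → Prop) (E : I → Finset Q)
    (S : Finset R) (γ : R → Q × Q) :
    (∀ a, Gd a (sys γ (fun a : I => E a ×ˢ (univ : Finset Q)) S a)) ↔
      ∀ a, Gd a (sys (fun p => (γ p).1) E S a) := by
  refine forall_congr' fun a => ?_
  rw [sys_fst E (fun a => E a ×ˢ (univ : Finset Q)) S γ a a rfl]

/-- **SQH** -/
theorem t_SQH : S_SQH := by
  intro R SA I Q _ _ _ Gd c V _ lv Ad Bad E hA1 hA2 P hP δ ε hδ hε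
  obtain ⟨x, hx⟩ : ∃ x : Finset R → ℝ, ∀ S, x S =
    pr S (fun γ : R → Q => P (cnt (lc γ lv) S) ∧ ∀ a, Gd a (sys γ E S a)) := ⟨_, fun _ => rfl⟩
  obtain ⟨y, hy⟩ : ∃ y : Finset R → ℝ, ∀ S, y S =
    pr S (fun γ : R → Q => P (cnt (lc γ lv) S)) := ⟨_, fun _ => rfl⟩
  simp only [← hx, ← hy]
  set C : ℝ := 1 + 2 * |c| with hC
  have hCpos : 0 < C := by positivity
  set ε₁ : ℝ := δ ^ 2 * ε / C with hε₁
  have hε₁pos : 0 < ε₁ := by positivity
  have dy : ∀ S : Finset R, Dep S (fun γ : R → Q => P (cnt (lc γ lv) S)) :=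
    fun S => dep_P lv P S
  have dx : ∀ S : Finset R, Dep S (fun γ : R → Q => P (cnt (lc γ lv) S) ∧
      ∀ a, Gd a (sys γ E S a)) :=
    fun S => (dy S).and (dep_GdH Gd E S)
  obtain ⟨X₁, h₁⟩ := hA1 (fun n => P (m1 n) ∧ P (m2 n)) (ok_EE E Ad Bad P hP) ε₁ hε₁pos
  obtain ⟨X₂, h₂⟩ := hA2 (fun n => P (m1 n) ∧ P (m2 n)) (ok_E1 E Ad Bad P hP) ε₁ hε₁pos
  have e1 : ∀ S : Finset R, pr S (fun γ : R → Q × Q =>
      (P (m1 (cnt (lc γ lv) S)) ∧ P (m2 (cnt (lc γ lv) S))) ∧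
        ∀ a, (Sum.elim Gd Gd : I ⊕ I → Finset R → Prop) a (sys γ (EE E) S a)) =
      x S * x S := by
    intro S
    rw [hx, ← Pool.Agent.N869.QT.G.t_AV3 R Q S _ _ (dx S) (dx S)]
    congr 1
    funext γ
    rw [cnt_m1, cnt_m2, all_EEH]
    apply propext
    tauto
  have e2 : ∀ S : Finset R, pr S (fun γ : R → Q × Q =>
      P (m1 (cnt (lc γ lv) S)) ∧ P (m2 (cnt (lc γ lv) S))) = y S * y S := by
    intro S
    rw [hy, ← Pool.Agent.N869.QT.G.t_AV3 R Q S _ _ (dy S) (dy S)]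
    congr 1
    funext γ
    rw [cnt_m1, cnt_m2]
  have e3 : ∀ S : Finset R, pr S (fun γ : R → Q × Q =>
      (P (m1 (cnt (lc γ lv) S)) ∧ P (m2 (cnt (lc γ lv) S))) ∧
        ∀ a, Gd a (sys γ (fun a : I => E a ×ˢ (univ : Finset Q)) S a)) = x S * y S := by
    intro S
    rw [hx, hy, ← Pool.Agent.N869.QT.G.t_AV3 R Q S _ _ (dx S) (dy S)]
    congr 1
    funext γ
    rw [cnt_m1, cnt_m2, all_E1H]
    apply propext
    tauto
  refine ⟨max X₁ X₂, fun X hX => ?_⟩
  have g1 := h₁ X (le_trans (le_max_left _ _) hX)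
  have g2 := h₂ X (le_trans (le_max_right _ _) hX)
  simp only [e1, e2] at g1
  simp only [e3, e2] at g2
  have hsq : ∑ S ∈ SA X, (x S - c * y S) ^ 2 =
      (∑ S ∈ SA X, x S * x S - c * c * ∑ S ∈ SA X, y S * y S) -
        2 * c * (∑ S ∈ SA X, x S * y S - c * ∑ S ∈ SA X, y S * y S) := by
    rw [Finset.mul_sum, Finset.mul_sum, ← Finset.sum_sub_distrib, ← Finset.sum_sub_distrib,
      Finset.mul_sum, ← Finset.sum_sub_distrib]
    refine Finset.sum_congr rfl fun S _ => ?_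
    ring
  have hle : ∑ S ∈ SA X, (x S - c * y S) ^ 2 ≤ C * (ε₁ * X) := by
    rw [hsq, hC]
    have a1 := le_abs_self (∑ S ∈ SA X, x S * x S - c * c * ∑ S ∈ SA X, y S * y S)
    have a2 : -(2 * c * (∑ S ∈ SA X, x S * y S - c * ∑ S ∈ SA X, y S * y S)) ≤
        2 * |c| * (ε₁ * X) := by
      refine le_trans (neg_le_abs _) ?_
      rw [abs_mul, abs_mul, abs_two]
      exact mul_le_mul_of_nonneg_left g2 (by positivity)
    nlinarith [a1, a2, g1]
  have hmk : δ ^ 2 * (((SA X).filter fun S => δ < |x S - c * y S|).card : ℝ) ≤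
      ∑ S ∈ SA X, (x S - c * y S) ^ 2 := by
    have : ∑ S ∈ (SA X).filter (fun S => δ < |x S - c * y S|), (x S - c * y S) ^ 2 ≤
        ∑ S ∈ SA X, (x S - c * y S) ^ 2 :=
      Finset.sum_le_sum_of_subset_of_nonneg (Finset.filter_subset _ _) (fun _ _ _ => sq_nonneg _)
    refine le_trans ?_ this
    rw [mul_comm, ← nsmul_eq_mul]
    refine Finset.card_nsmul_le_sum _ _ _ ?_
    intro S hS
    have h := (mem_filter.mp hS).2
    rw [← sq_abs (x S - c * y S)]
    exact pow_le_pow_left₀ hδ.le h.le 2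
  have hfin : δ ^ 2 * (((SA X).filter fun S => δ < |x S - c * y S|).card : ℝ) ≤
      δ ^ 2 * (ε * X) := by
    refine le_trans hmk (le_trans hle (le_of_eq ?_))
    rw [hε₁]
    field_simp
  exact le_of_mul_le_mul_left hfin (by positivity)

end Pool.Agent.N835.GK
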